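import Pool.Agent.LibJac77.Stmt

/-!
Finitely many torsion points of bounded degree on a curve of genus two.
-/

open scoped Classical
open Polynomial

namespace Pool.Agent.LibK4

open Pool.Agent.LibJac77

/-- finitely many points of `C` of bounded degree have torsion class -/
theorem finite_torsion (f : Qb[X]) [Genus2 f] (B : ℕ) :
    {P : Pt f | Bdd B P ∧ ∃ n : ℕ, n ≠ 0 ∧ n • jP P = 0}.Finite := by
  obtain ⟨p, p', hp, hp', V, V', hpp, hV, hV', hc, hc'⟩ := exists_two_places f
  have h1 := finite_redu f V p B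
  have h2 := finite_redu f V' p' B
  have h0 : ((fun P : Pt f => (redu V P, redu V' P)) ''
      {P : Pt f | Bdd B P ∧ ∃ n : ℕ, n ≠ 0 ∧ n • jP P = 0}).Finite := by
    refine (h1.prod h2).subset ?_
    rintro _ ⟨P, ⟨hP, _⟩, rfl⟩
    exact ⟨⟨P, hP, rfl⟩, ⟨P, hP, rfl⟩⟩
  refine Set.Finite.of_finite_image h0 ?_
  · rintro P ⟨_, n, hn, hP⟩ Q ⟨_, m, hm, hQ⟩ h
    have e1 : redu V P = redu V Q := congrArg Prod.fst h
    have e2 : redu V' P = redu V' Q := congrArg Prod.snd h
    have h3 : jP P - jP Q = 0 := by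
      refine two_places (hp := hp) (hp' := hp') hpp (c := jP P - jP Q) (hV := hV) (hV' := hV')
        ⟨P, Q, e1, rfl⟩ ⟨P, Q, e2, rfl⟩ (n * m) (mul_ne_zero hn hm) ?_
      rw [smul_sub, mul_comm n m, mul_smul, hP, smul_zero, mul_comm m n, mul_smul, hQ, smul_zero,
        sub_zero]
    have h4 : jP P + jP (.inf : Pt f) = jP Q + jP (.inf : Pt f) := by rw [sub_eq_zero.1 h3]
    rcases two_unique h4 with h5 | h5 | h5
    · exact h5.1
    · exact h5.1.trans h5.2
    · have h6 : neg (neg P) = neg (neg Q) := by rw [← h5.1, ← h5.2]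
      rwa [neg_neg', neg_neg'] at h6

end Pool.Agent.LibK4
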