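import Mathlib

/-!
Values of polynomials with a simple root which are not squares.
-/

open scoped Classical
open Polynomial

namespace Pool.Agent.LibK4

open IsDedekindDomain NumberField WithZero

theorem hos_infinite (K : Type) [Field K] [NumberField K] : Infinite (HeightOneSpectrum (𝓞 K)) := by
  have h : ∀ p : Nat.Primes, ∃ Q : Ideal (𝓞 K), Q.IsMaximal ∧
      Q.comap (algebraMap ℤ (𝓞 K)) = Ideal.span {((p : ℕ) : ℤ)} := by
    intro p
    have hp : (Ideal.span {((p : ℕ) : ℤ)}).IsMaximal :=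
      PrincipalIdealRing.isMaximal_of_irreducible (Nat.prime_iff_prime_int.1 p.2).irreducible
    apply Ideal.exists_ideal_over_maximal_of_isIntegral
    rw [(RingHom.injective_iff_ker_eq_bot _).1
      (FaithfulSMul.algebraMap_injective ℤ (𝓞 K))]
    exact bot_le
  choose Q hQ hQp using h
  have hne : ∀ p, Q p ≠ ⊥ := by
    intro p h0
    have h1 : ((p : ℕ) : ℤ) ∈ (Q p).comap (algebraMap ℤ (𝓞 K)) := by
      rw [hQp]; exact Ideal.mem_span_singleton_self _
    rw [Ideal.mem_comap, h0, Ideal.mem_bot] at h1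
    have h2 := (FaithfulSMul.algebraMap_injective ℤ (𝓞 K)) (h1.trans (map_zero _).symm)
    exact p.2.ne_zero (by exact_mod_cast h2)
  refine Infinite.of_injective (fun p : Nat.Primes =>
    (⟨Q p, (hQ p).isPrime, hne p⟩ : HeightOneSpectrum (𝓞 K))) ?_
  intro p q hpq
  have h1 : Q p = Q q := congrArg HeightOneSpectrum.asIdeal hpq
  have h2 := hQp p
  rw [h1, hQp q, Ideal.span_singleton_eq_span_singleton] at h2
  have h3 := Int.natAbs_eq_iff_associated.2 h2
  apply Subtype.ext
  simpa using h3.symm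

section
variable {K : Type} [Field K] (v : Valuation K ℤᵐ⁰)

theorem val_pow_sub {x ρ : K} (hx : v x ≤ 1) (hρ : v ρ ≤ 1) (k : ℕ) :
    v (x ^ k - ρ ^ k) ≤ v (x - ρ) := by
  induction k with
  | zero => simp
  | succ k ih =>
    have e : x ^ (k + 1) - ρ ^ (k + 1) = x * (x ^ k - ρ ^ k) + (x - ρ) * ρ ^ k := by ring
    rw [e]
    refine (v.map_add _ _).trans (max_le ?_ ?_)
    · rw [map_mul]
      exact (mul_le_of_le_one_left' hx).trans ih
    · rw [map_mul, map_pow]
      exact mul_le_of_le_one_right' (pow_le_one' hρ k)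

theorem val_eval_sub {x ρ : K} (hx : v x ≤ 1) (hρ : v ρ ≤ 1) (h : K[X])
    (hc : ∀ k ∈ Finset.range (h.natDegree + 1), v (h.coeff k) ≤ 1) :
    v (h.eval x - h.eval ρ) ≤ v (x - ρ) := by
  rw [eval_eq_sum_range, eval_eq_sum_range, ← Finset.sum_sub_distrib]
  apply v.map_sum_le
  intro k hk
  rw [← mul_sub, map_mul]
  exact (mul_le_of_le_one_left' (hc k hk)).trans (val_pow_sub v hx hρ k)

theorem val_eval_le {ρ : K} (hρ : v ρ ≤ 1) (h : K[X])
    (hc : ∀ k ∈ Finset.range (h.natDegree + 1), v (h.coeff k) ≤ 1) :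
    v (h.eval ρ) ≤ 1 := by
  rw [eval_eq_sum_range]
  apply v.map_sum_le
  intro k hk
  rw [map_mul, map_pow]
  exact mul_le_one' (hc k hk) (pow_le_one' hρ k)

theorem not_sq {y : K} (h : v y = exp (-1)) : ¬ IsSquare y := by
  rintro ⟨s, rfl⟩
  rw [map_mul] at h
  have hs : v s ≠ 0 := by
    intro h0
    rw [h0, zero_mul] at h
    exact exp_ne_zero h.symm
  obtain ⟨k, hk⟩ : ∃ k : ℤ, v s = exp k := ⟨log (v s), (exp_log hs).symm⟩
  rw [hk, ← exp_add] at h
  have := exp_injective h
  omega

end

/-- finitely many polynomials with a simple root over a number field have infinitely many common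
arguments at which no value is a square -/
theorem exists_nonsquare (K : Type) [Field K] [NumberField K] {n : ℕ} (ρ : Fin n → K)
    (h : Fin n → K[X]) (hρ : ∀ i, (h i).eval (ρ i) ≠ 0) (S : Finset K) :
    ∃ x : K, x ∉ S ∧ ∀ i, ¬ IsSquare ((x - ρ i) * (h i).eval x) := by
  have hinf := hos_infinite K
  set B : Set (HeightOneSpectrum (𝓞 K)) :=
    ((⋃ i, HeightOneSpectrum.Support (𝓞 K) (ρ i)) ∪
      (⋃ i, ⋃ k ∈ Finset.range ((h i).natDegree + 1),
        HeightOneSpectrum.Support (𝓞 K) ((h i).coeff k))) ∪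
      (⋃ i, HeightOneSpectrum.Support (𝓞 K) (((h i).eval (ρ i))⁻¹)) with hB
  have hBf : B.Finite := by
    rw [hB]
    refine Set.Finite.union (Set.Finite.union ?_ ?_) ?_
    · exact Set.finite_iUnion fun i => HeightOneSpectrum.Support.finite _ _
    · exact Set.finite_iUnion fun i => Set.Finite.biUnion (Finset.finite_toSet _) fun k _ =>
        HeightOneSpectrum.Support.finite _ _
    · exact Set.finite_iUnion fun i => HeightOneSpectrum.Support.finite _ _
  have hBc : (Bᶜ).Infinite := hBf.infinite_compl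
  set P : Fin n → HeightOneSpectrum (𝓞 K) := fun i => (hBc.natEmbedding _ i : _) with hP
  have hPinj : Function.Injective P := by
    intro i j hij
    have h1 := (hBc.natEmbedding _).injective (Subtype.ext hij)
    exact Fin.ext h1
  have hPB : ∀ i, P i ∉ B := fun i => (hBc.natEmbedding _ i).2
  have hv1 : ∀ i, (P i).valuation K (ρ i) ≤ 1 := by
    intro i
    by_contra hc
    apply hPB i
    left; left
    simp only [Set.mem_iUnion]
    exact ⟨i, not_le.1 hc⟩
  have hv2 : ∀ i, ∀ k ∈ Finset.range ((h i).natDegree + 1),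
      (P i).valuation K ((h i).coeff k) ≤ 1 := by
    intro i k hk
    by_contra hc
    apply hPB i
    left; right
    simp only [Set.mem_iUnion]
    exact ⟨i, k, hk, not_le.1 hc⟩
  have hv3 : ∀ i, (P i).valuation K ((h i).eval (ρ i)) = 1 := by
    intro i
    apply le_antisymm (val_eval_le _ (hv1 i) _ (hv2 i))
    have h1 : (P i).valuation K (((h i).eval (ρ i))⁻¹) ≤ 1 := by
      by_contra hc
      apply hPB i
      right
      simp only [Set.mem_iUnion]
      exact ⟨i, not_le.1 hc⟩
    rw [map_inv₀] at h1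
    have h2 : (P i).valuation K ((h i).eval (ρ i)) ≠ 0 := (Valuation.ne_zero_iff _).2 (hρ i)
    exact (inv_le_one₀ (zero_lt_iff.2 h2)).1 h1
  choose π hπ using fun i => (P i).intValuation_exists_uniformizer
  choose r hr using fun i => HeightOneSpectrum.exists_valuation_sub_lt_of_integer (P i) (hv1 i)
    (Units.mk0 (exp (-1 : ℤ)) exp_ne_zero)
  obtain ⟨y, hy⟩ := exists_forall_sub_mem_ideal (s := (Finset.univ : Finset (Fin n)))
    (fun i => (P i).asIdeal) (fun _ => 2) (fun i _ => (P i).prime)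
    (fun i _ j _ hij h0 => hij (hPinj (HeightOneSpectrum.ext h0)))
    (fun i => r i.1 + π i.1)
  have hπ0 : ∀ i, π i ≠ 0 := by
    intro i h0
    have h1 := hπ i
    rw [h0, map_zero] at h1
    exact exp_ne_zero h1.symm
  have hπm : ∀ i, π i ∈ (P i).asIdeal := by
    intro i
    rw [← HeightOneSpectrum.intValuation_lt_one_iff_mem, hπ i]
    rw [← exp_zero]
    exact exp_lt_exp.2 (by norm_num)
  set N : 𝓞 K := ∏ i, π i ^ 2 with hN
  have hN0 : N ≠ 0 := Finset.prod_ne_zero_iff.2 fun i _ => pow_ne_zero _ (hπ0 i)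
  have hNm : ∀ i, N ∈ (P i).asIdeal ^ 2 := by
    intro i
    rw [hN, ← Finset.mul_prod_erase _ _ (Finset.mem_univ i)]
    exact Ideal.mul_mem_right _ _ (Ideal.pow_mem_pow (hπm i) 2)
  have hinjt : Function.Injective (fun t : ℕ => (algebraMap (𝓞 K) K (y + t * N))) := by
    intro t t' htt
    have h1 := (FaithfulSMul.algebraMap_injective (𝓞 K) K) htt
    have h2 : ((t : 𝓞 K) - t') * N = 0 := by linear_combination h1
    rcases mul_eq_zero.1 h2 with h3 | h3
    · exact_mod_cast sub_eq_zero.1 h3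
    · exact absurd h3 hN0
  obtain ⟨x, ⟨t, rfl⟩, hxS⟩ := (Set.infinite_range_of_injective hinjt).exists_notMem_finset S
  refine ⟨_, hxS, fun i => ?_⟩
  simp only
  set x : K := algebraMap (𝓞 K) K (y + t * N) with hx
  have hvx : (P i).valuation K x ≤ 1 := (P i).valuation_le_one _
  have hd : (P i).valuation K (x - ρ i) = exp (-1) := by
    have e : x - ρ i = algebraMap (𝓞 K) K (π i) +
        (algebraMap (𝓞 K) K (y - (r i + π i) + t * N) + (algebraMap (𝓞 K) K (r i) - ρ i)) := by
      rw [hx]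
      simp only [map_add, map_sub, map_mul]
      ring
    have h1 : (P i).valuation K (algebraMap (𝓞 K) K (π i)) = exp (-1) := by
      rw [HeightOneSpectrum.valuation_of_algebraMap, hπ i]
    have h2 : (P i).valuation K (algebraMap (𝓞 K) K (y - (r i + π i) + t * N)) < exp (-1) := by
      rw [HeightOneSpectrum.valuation_of_algebraMap]
      have h3 : y - (r i + π i) + t * N ∈ (P i).asIdeal ^ 2 :=
        add_mem (hy i (Finset.mem_univ i)) (Ideal.mul_mem_left _ _ (hNm i))
      have h4 := (HeightOneSpectrum.intValuation_le_pow_iff_mem (P i) _ 2).2 h3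
      refine lt_of_le_of_lt h4 (exp_lt_exp.2 (by norm_num))
    have h5 : (P i).valuation K (algebraMap (𝓞 K) K (r i) - ρ i) < exp (-1) := hr i
    rw [e, Valuation.map_add_eq_of_lt_left]
    · exact h1
    · rw [h1]
      exact (P i).valuation K |>.map_add_lt h2 h5
  have hev : (P i).valuation K ((h i).eval x) = 1 := by
    have h1 := val_eval_sub _ hvx (hv1 i) (h i) (hv2 i)
    rw [hd] at h1
    have h2 : (h i).eval x = (h i).eval (ρ i) + ((h i).eval x - (h i).eval (ρ i)) := by ring
    rw [h2, Valuation.map_add_eq_of_lt_left, hv3]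
    rw [hv3]
    refine lt_of_le_of_lt h1 ?_
    rw [← exp_zero]
    exact exp_lt_exp.2 (by norm_num)
  apply not_sq ((P i).valuation K)
  rw [map_mul, hd, hev, mul_one]

end Pool.Agent.LibK4
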