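import Pool.Agent.LibK4.Core

/-!
The function on the curve of pairs.
-/

open scoped Classical
open Polynomial

namespace Pool.Agent.LibK4

open Pool.Agent.LibBH2 Pool.Agent.LibQC8

variable {k H : Type} [Field k] [Field H] [Algebra k H]

/-- the product of the values of a quintic at `X` and `X'`, `X X' = α β` -/
theorem alg_prod {R : Type} [CommRing R] {X X' α β γ δ : R} (h : X * X' = α * β) :
    (X * (X - α) * (X - β) * (X - γ) * (X - δ)) * (X' * (X' - α) * (X' - β) * (X' - γ) * (X' - δ)) =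
      (α * β) ^ 2 * (α + β - (X + X')) ^ 2 * (α * β + γ ^ 2 - γ * (X + X')) *
        (α * β + δ ^ 2 - δ * (X + X')) := by
  have e1 : (X - α) * (X' - α) = α * (α + β - (X + X')) := by linear_combination h
  have e2 : (X - β) * (X' - β) = β * (α + β - (X + X')) := by linear_combination h
  have e3 : (X - γ) * (X' - γ) = α * β + γ ^ 2 - γ * (X + X') := by linear_combination h
  have e4 : (X - δ) * (X' - δ) = α * β + δ ^ 2 - δ * (X + X') := by linear_combination h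
  rw [← e3, ← e4]
  have h1 : (α * β) ^ 2 * (α + β - (X + X')) ^ 2 = (X * X') * (((X - α) * (X' - α)) *
      ((X - β) * (X' - β))) := by
    rw [e1, e2, h]; ring
  rw [h1]
  ring

theorem const_of_alg [IsAlgClosed k] {x : H} (h : ¬ Transcendental k x) :
    ∃ c, algebraMap k H c = x :=
  Pool.Agent.LibEnd77.Val8.alg_const (not_not.1 h)

theorem map_ne {c : k} (h : c ≠ 0) : algebraMap k H c ≠ 0 := by
  rwa [Ne, map_eq_zero_iff _ (algebraMap k H).injective]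

/-- zeros, first case -/
theorem zeroA (v : Place k H) {m γ δ u₀ t₀ : k} {u t : H} (hγδ : γ ≠ δ) (hm : m ≠ γ * δ)
    (ht : t ^ 2 * (algebraMap k H (m + γ ^ 2) - algebraMap k H γ * u) =
      algebraMap k H (m + δ ^ 2) - algebraMap k H δ * u)
    (ht₀ : t₀ ^ 2 * (m + γ ^ 2 - γ * u₀) = m + δ ^ 2 - δ * u₀)
    (hz : v.Zer (t - algebraMap k H t₀)) : v.Zer (u - algebraMap k H u₀) := by
  have h1 : (δ - γ * t₀ ^ 2) * (m + γ ^ 2 - γ * u₀) = (δ - γ) * (m - γ * δ) := by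
    linear_combination -γ * ht₀
  have h2 : δ - γ * t₀ ^ 2 ≠ 0 := by
    intro h0
    rw [h0, zero_mul] at h1
    rcases mul_eq_zero.1 h1.symm with h | h
    · exact hγδ (sub_eq_zero.1 h).symm
    · exact hm (sub_eq_zero.1 h)
  have hz2 := Place.val_pow hz 2
  have h3 : v.Zer (algebraMap k H δ - algebraMap k H γ * t ^ 2 -
      algebraMap k H (δ - γ * t₀ ^ 2)) :=
    Place.val_sub (Place.val_const δ) (Place.val_mul (Place.val_const γ) hz2)
  have h4 : v.Zer (algebraMap k H (m + δ ^ 2) - t ^ 2 * algebraMap k H (m + γ ^ 2) -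
      algebraMap k H (m + δ ^ 2 - t₀ ^ 2 * (m + γ ^ 2))) :=
    Place.val_sub (Place.val_const _) (Place.val_mul hz2 (Place.val_const _))
  have h5 := Place.val_div h4 h3 h2
  have h6 : algebraMap k H δ - algebraMap k H γ * t ^ 2 ≠ 0 := Place.ne_zero_of_val h3 h2
  have h7 : (algebraMap k H (m + δ ^ 2) - t ^ 2 * algebraMap k H (m + γ ^ 2)) /
      (algebraMap k H δ - algebraMap k H γ * t ^ 2) = u := by
    rw [div_eq_iff h6]
    linear_combination -ht
  have h8 : (m + δ ^ 2 - t₀ ^ 2 * (m + γ ^ 2)) / (δ - γ * t₀ ^ 2) = u₀ := by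
    rw [div_eq_iff h2]
    linear_combination -ht₀
  rwa [h7, h8] at h5

/-- `t` is not constant, first case -/
theorem transA [IsAlgClosed k] {m γ δ : k} {u t : H} (hγδ : γ ≠ δ) (hm : m ≠ γ * δ)
    (ht : t ^ 2 * (algebraMap k H (m + γ ^ 2) - algebraMap k H γ * u) =
      algebraMap k H (m + δ ^ 2) - algebraMap k H δ * u)
    (hu : ∀ z, algebraMap k H z ≠ u) (t₀ : k) : Transcendental k (t - algebraMap k H t₀) := by
  by_contra hcon
  obtain ⟨z, hz⟩ := const_of_alg hcon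
  have hz' : t = algebraMap k H (z + t₀) := by rw [map_add, hz, sub_add_cancel]
  rw [hz'] at ht
  have h1 : algebraMap k H ((z + t₀) ^ 2 * γ - δ) * u =
      algebraMap k H ((z + t₀) ^ 2 * (m + γ ^ 2) - (m + δ ^ 2)) := by
    simp only [map_sub, map_mul, map_pow, map_add] at ht ⊢
    linear_combination -ht
  by_cases h2 : (z + t₀) ^ 2 * γ - δ = 0
  · rw [h2, map_zero, zero_mul] at h1
    have h3 := (map_eq_zero_iff _ (algebraMap k H).injective).1 h1.symm
    have h4 : (δ - γ) * (m - γ * δ) = 0 := by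
      linear_combination γ * h3 - (m + γ ^ 2) * h2
    rcases mul_eq_zero.1 h4 with h5 | h5
    · exact hγδ (sub_eq_zero.1 h5).symm
    · exact hm (sub_eq_zero.1 h5)
  · apply hu (((z + t₀) ^ 2 * (m + γ ^ 2) - (m + δ ^ 2)) / ((z + t₀) ^ 2 * γ - δ))
    rw [map_div₀, div_eq_iff (map_ne h2), ← h1, mul_comm]

/-- poles, first case -/
theorem poleA (v : Place k H) {γ δ t₀ Ξ Ξ' : k} {X X' t : H}
    (hγ : X - algebraMap k H γ ≠ 0) (hγ' : X' - algebraMap k H γ ≠ 0)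
    (hδ : X - algebraMap k H δ ≠ 0) (hδ' : X' - algebraMap k H δ ≠ 0)
    (ht : t ^ 2 * ((X - algebraMap k H γ) * (X' - algebraMap k H γ)) =
      (X - algebraMap k H δ) * (X' - algebraMap k H δ))
    (hv : v.ord (t - algebraMap k H t₀) < 0)
    (k1 : v.Zer (X - algebraMap k H Ξ)) (k3 : v.Zer (X' - algebraMap k H Ξ')) :
    Ξ = γ ∨ Ξ' = γ := by
  have h1 : ¬ v.Reg t := by
    intro h
    have h2 := h.sub (v.reg_const t₀)
    rcases h2 with h2 | h2
    · rw [h2, v.ord_zero] at hv; exact lt_irrefl _ hv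
    · omega
  have h3 : v.Zer ((X - algebraMap k H γ) * (X' - algebraMap k H γ) -
      algebraMap k H ((Ξ - γ) * (Ξ' - γ))) :=
    Place.val_mul (Place.val_sub k1 (Place.val_const γ)) (Place.val_sub k3 (Place.val_const γ))
  have h4 : v.Reg ((X - algebraMap k H δ) * (X' - algebraMap k H δ)) :=
    ((Place.reg_of_val k1).sub (v.reg_const δ)).mul ((Place.reg_of_val k3).sub (v.reg_const δ))
  by_cases h5 : (Ξ - γ) * (Ξ' - γ) = 0
  · rcases mul_eq_zero.1 h5 with h6 | h6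
    · exact Or.inl (sub_eq_zero.1 h6)
    · exact Or.inr (sub_eq_zero.1 h6)
  · exfalso
    have h6 := Place.ord_eq_zero_of_val h3 h5
    have ht0 : t ≠ 0 := by
      rintro h
      exact h1 (Or.inl h)
    have h7 := congrArg v.ord ht
    rw [v.ord_mul _ _ (pow_ne_zero 2 ht0) (mul_ne_zero hγ hγ'), h6, v.ord_pow] at h7
    have h8 := h4.resolve_left (mul_ne_zero hδ hδ')
    apply h1
    right
    push_cast at h7
    omega

/-- the function, first case -/
theorem caseA [IsAlgClosed k] {X X' y y' : H} {α β γ δ Ξ₀ Ξ₁ η₀ η₁ : k}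
    (hX : X * X' = algebraMap k H (α * β))
    (hy : y ^ 2 = X * (X - algebraMap k H α) * (X - algebraMap k H β) * (X - algebraMap k H γ) *
      (X - algebraMap k H δ))
    (hy' : y' ^ 2 = X' * (X' - algebraMap k H α) * (X' - algebraMap k H β) *
      (X' - algebraMap k H γ) * (X' - algebraMap k H δ))
    (hne : ∀ z, X - algebraMap k H z ≠ 0) (hne' : ∀ z, X' - algebraMap k H z ≠ 0)
    (hu : ∀ z, algebraMap k H z ≠ X + X') (h0 : Ξ₀ * Ξ₁ = α * β)
    (hη₀ : η₀ ^ 2 = Ξ₀ * (Ξ₀ - α) * (Ξ₀ - β) * (Ξ₀ - γ) * (Ξ₀ - δ))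
    (hη₁ : η₁ ^ 2 = Ξ₁ * (Ξ₁ - α) * (Ξ₁ - β) * (Ξ₁ - γ) * (Ξ₁ - δ))
    (hη : η₀ * η₁ ≠ 0) (hγδ : γ ≠ δ) (hm0 : α * β ≠ 0) (hm : α * β ≠ γ * δ) :
    ∃ φ : H, Transcendental k φ ∧
      (∀ v : Place k H, 0 < v.ord φ → v.Zer (X + X' - algebraMap k H (Ξ₀ + Ξ₁)) ∧
        v.Zer (y * y' - algebraMap k H (η₀ * η₁))) ∧
      ∀ v : Place k H, v.ord φ < 0 → ∀ Ξ Ξ' : k, v.Zer (X - algebraMap k H Ξ) →
        v.Zer (X' - algebraMap k H Ξ') → Ξ = γ ∨ Ξ' = γ := by
  have hXm : X * X' = algebraMap k H α * algebraMap k H β := by rw [hX, map_mul]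
  have hR : (y * y') ^ 2 = algebraMap k H (α * β) ^ 2 *
      (algebraMap k H (α + β) - (X + X')) ^ 2 *
      (algebraMap k H (α * β + γ ^ 2) - algebraMap k H γ * (X + X')) *
      (algebraMap k H (α * β + δ ^ 2) - algebraMap k H δ * (X + X')) := by
    rw [mul_pow, hy, hy', alg_prod hXm]
    simp only [map_add, map_mul, map_pow]
  have hR' : (η₀ * η₁) ^ 2 = (α * β) ^ 2 * (α + β - (Ξ₀ + Ξ₁)) ^ 2 *
      (α * β + γ ^ 2 - γ * (Ξ₀ + Ξ₁)) * (α * β + δ ^ 2 - δ * (Ξ₀ + Ξ₁)) := by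
    rw [mul_pow, hη₀, hη₁, alg_prod h0]
  have hR0 : (α * β) ^ 2 * (α + β - (Ξ₀ + Ξ₁)) ^ 2 *
      (α * β + γ ^ 2 - γ * (Ξ₀ + Ξ₁)) * (α * β + δ ^ 2 - δ * (Ξ₀ + Ξ₁)) ≠ 0 := by
    rw [← hR']
    exact pow_ne_zero 2 hη
  have hA : algebraMap k H (α * β + γ ^ 2) - algebraMap k H γ * (X + X') =
      (X - algebraMap k H γ) * (X' - algebraMap k H γ) := by
    simp only [map_add, map_mul, map_pow]
    linear_combination -hXm
  have hB : algebraMap k H (α * β + δ ^ 2) - algebraMap k H δ * (X + X') =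
      (X - algebraMap k H δ) * (X' - algebraMap k H δ) := by
    simp only [map_add, map_mul, map_pow]
    linear_combination -hXm
  have hu₁ : ∀ z, algebraMap k H z - (X + X') ≠ 0 := fun z h => hu z (sub_eq_zero.1 h)
  clear hy hy' hη₀ hη₁ hX
  generalize hm' : α * β = m at *
  generalize hs : α + β = s at *
  have hmH : algebraMap k H m ≠ 0 := map_ne hm0
  have hw := hu₁ s
  have hA' : algebraMap k H (m + γ ^ 2) - algebraMap k H γ * (X + X') ≠ 0 := by
    rw [hA]; exact mul_ne_zero (hne γ) (hne' γ)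
  have hw0 : s - (Ξ₀ + Ξ₁) ≠ 0 := by
    intro h; rw [h] at hR0; exact hR0 (by ring)
  have hA0 : m + γ ^ 2 - γ * (Ξ₀ + Ξ₁) ≠ 0 := by
    intro h; rw [h] at hR0; exact hR0 (by ring)
  obtain ⟨t, ht⟩ : ∃ t : H, y * y' = t * (algebraMap k H m * (algebraMap k H s - (X + X')) *
      (algebraMap k H (m + γ ^ 2) - algebraMap k H γ * (X + X'))) :=
    ⟨_, (div_mul_cancel₀ _ (mul_ne_zero (mul_ne_zero hmH hw) hA')).symm⟩
  obtain ⟨t₀, ht₀⟩ : ∃ t₀ : k, η₀ * η₁ = t₀ * (m * (s - (Ξ₀ + Ξ₁)) *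
      (m + γ ^ 2 - γ * (Ξ₀ + Ξ₁))) :=
    ⟨_, (div_mul_cancel₀ _ (mul_ne_zero (mul_ne_zero hm0 hw0) hA0)).symm⟩
  have ht2 : t ^ 2 * (algebraMap k H (m + γ ^ 2) - algebraMap k H γ * (X + X')) =
      algebraMap k H (m + δ ^ 2) - algebraMap k H δ * (X + X') := by
    rw [ht] at hR
    apply mul_left_cancel₀ (mul_ne_zero (mul_ne_zero (pow_ne_zero 2 hmH) (pow_ne_zero 2 hw)) hA')
    refine Eq.trans ?_ (hR.trans ?_)
    · ring
    · ring
  have ht2' : t₀ ^ 2 * (m + γ ^ 2 - γ * (Ξ₀ + Ξ₁)) = m + δ ^ 2 - δ * (Ξ₀ + Ξ₁) := by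
    rw [ht₀] at hR'
    apply mul_left_cancel₀ (mul_ne_zero (mul_ne_zero (pow_ne_zero 2 hm0) (pow_ne_zero 2 hw0)) hA0)
    refine Eq.trans ?_ (hR'.trans ?_)
    · ring
    · ring
  refine ⟨t - algebraMap k H t₀, transA hγδ hm ht2 hu t₀, fun v hv => ?_, fun v hv Ξ Ξ' k1 k3 => ?_⟩
  · have hz : v.Zer (t - algebraMap k H t₀) := Or.inr hv
    have hzu := zeroA v hγδ hm ht2 ht2' hz
    refine ⟨hzu, ?_⟩
    rw [ht, ht₀]
    exact Place.val_mul hz (Place.val_mul (Place.val_mul (Place.val_const m)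
      (Place.val_sub (Place.val_const _) hzu))
      (Place.val_sub (Place.val_const _) (Place.val_mul (Place.val_const _) hzu)))
  · exact poleA v (hne γ) (hne' γ) (hne δ) (hne' δ) (by rw [← hA, ← hB]; exact ht2) hv k1 k3

/-- the function, second case -/
theorem caseB [IsAlgClosed k] {X X' y y' : H} {α β γ δ Ξ₀ Ξ₁ η₀ η₁ : k}
    (hX : X * X' = algebraMap k H (α * β))
    (hy : y ^ 2 = X * (X - algebraMap k H α) * (X - algebraMap k H β) * (X - algebraMap k H γ) *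
      (X - algebraMap k H δ))
    (hy' : y' ^ 2 = X' * (X' - algebraMap k H α) * (X' - algebraMap k H β) *
      (X' - algebraMap k H γ) * (X' - algebraMap k H δ))
    (hu : ∀ z, algebraMap k H z ≠ X + X') (h0 : Ξ₀ * Ξ₁ = α * β)
    (hη₀ : η₀ ^ 2 = Ξ₀ * (Ξ₀ - α) * (Ξ₀ - β) * (Ξ₀ - γ) * (Ξ₀ - δ))
    (hη₁ : η₁ ^ 2 = Ξ₁ * (Ξ₁ - α) * (Ξ₁ - β) * (Ξ₁ - γ) * (Ξ₁ - δ))
    (hη : η₀ * η₁ ≠ 0) (hm : α * β = γ * δ) :
    ∃ φ z' : H, z' ^ 2 = y' ^ 2 ∧ Transcendental k φ ∧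
      (∀ v : Place k H, 0 < v.ord φ → v.Zer (X + X' - algebraMap k H (Ξ₀ + Ξ₁)) ∧
        v.Zer (y * z' - algebraMap k H (η₀ * η₁))) ∧
      ∀ v : Place k H, v.ord φ < 0 → ∀ Ξ Ξ' : k, v.Zer (X - algebraMap k H Ξ) →
        v.Zer (X' - algebraMap k H Ξ') → Ξ = γ ∨ Ξ' = γ := by
  have hXm : X * X' = algebraMap k H α * algebraMap k H β := by rw [hX, map_mul]
  have hmH : algebraMap k H α * algebraMap k H β = algebraMap k H γ * algebraMap k H δ := by
    rw [← map_mul, ← map_mul, hm]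
  have hR : (y * y') ^ 2 = (algebraMap k H α * algebraMap k H β) *
      ((algebraMap k H α * algebraMap k H β) *
      (algebraMap k H (α + β) - (X + X')) * (algebraMap k H (γ + δ) - (X + X'))) ^ 2 := by
    rw [mul_pow, hy, hy', alg_prod hXm]
    simp only [map_add]
    linear_combination (-(algebraMap k H α * algebraMap k H β) ^ 2 *
      (algebraMap k H α + algebraMap k H β - (X + X')) ^ 2 *
      (algebraMap k H γ + algebraMap k H δ - (X + X')) ^ 2) * hmH +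
      ((algebraMap k H α * algebraMap k H β) ^ 2 *
      (algebraMap k H α + algebraMap k H β - (X + X')) ^ 2) * (
        (algebraMap k H α * algebraMap k H β + algebraMap k H δ ^ 2 - algebraMap k H δ * (X + X')) +
        algebraMap k H γ * (algebraMap k H γ + algebraMap k H δ - (X + X'))) * hmH
  have hR' : (η₀ * η₁) ^ 2 = (α * β) * ((α * β) * (α + β - (Ξ₀ + Ξ₁)) *
      (γ + δ - (Ξ₀ + Ξ₁))) ^ 2 := by
    rw [mul_pow, hη₀, hη₁, alg_prod h0]
    linear_combination (-(α * β) ^ 2 * (α + β - (Ξ₀ + Ξ₁)) ^ 2 * (γ + δ - (Ξ₀ + Ξ₁)) ^ 2) * hm +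
      ((α * β) ^ 2 * (α + β - (Ξ₀ + Ξ₁)) ^ 2) * ((α * β + δ ^ 2 - δ * (Ξ₀ + Ξ₁)) +
        γ * (γ + δ - (Ξ₀ + Ξ₁))) * hm
  have hR0 : (α * β) * (α + β - (Ξ₀ + Ξ₁)) * (γ + δ - (Ξ₀ + Ξ₁)) ≠ 0 := by
    intro h
    rw [h] at hR'
    exact pow_ne_zero 2 hη (by rw [hR']; ring)
  obtain ⟨s, hs⟩ : ∃ s : k, η₀ * η₁ = s * ((α * β) * (α + β - (Ξ₀ + Ξ₁)) *
      (γ + δ - (Ξ₀ + Ξ₁))) := ⟨_, (div_mul_cancel₀ _ hR0).symm⟩
  have hs2 : s ^ 2 = α * β := by
    rw [hs] at hR'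
    apply mul_right_cancel₀ (pow_ne_zero 2 hR0)
    rw [← mul_pow]
    exact hR'
  have hsq : (y * y') ^ 2 = (algebraMap k H s * (algebraMap k H (α * β) *
      (algebraMap k H (α + β) - (X + X')) * (algebraMap k H (γ + δ) - (X + X')))) ^ 2 := by
    rw [hR, mul_pow (algebraMap k H s), ← map_pow, hs2, map_mul]
  obtain ⟨z', hz', hyz⟩ : ∃ z' : H, z' ^ 2 = y' ^ 2 ∧ y * z' = algebraMap k H s *
      (algebraMap k H (α * β) * (algebraMap k H (α + β) - (X + X')) *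
        (algebraMap k H (γ + δ) - (X + X'))) := by
    rcases sq_eq_sq_iff_eq_or_eq_neg.1 hsq with h | h
    · exact ⟨y', rfl, h⟩
    · exact ⟨-y', by rw [neg_sq], by rw [mul_neg, h, neg_neg]⟩
  refine ⟨X + X' - algebraMap k H (Ξ₀ + Ξ₁), z', hz', ?_, fun v hv => ?_, fun v hv Ξ Ξ' k1 k3 => ?_⟩
  · by_contra hcon
    obtain ⟨z, hz⟩ := const_of_alg hcon
    apply hu (z + (Ξ₀ + Ξ₁))
    rw [map_add, hz, sub_add_cancel]
  · have hz : v.Zer (X + X' - algebraMap k H (Ξ₀ + Ξ₁)) := Or.inr hv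
    refine ⟨hz, ?_⟩
    rw [hyz, hs]
    exact Place.val_mul (Place.val_const s) (Place.val_mul (Place.val_mul (Place.val_const _)
      (Place.val_sub (Place.val_const _) hz)) (Place.val_sub (Place.val_const _) hz))
  · exfalso
    have h1 : v.Reg (X + X' - algebraMap k H (Ξ₀ + Ξ₁)) :=
      ((Place.reg_of_val k1).add (Place.reg_of_val k3)).sub (v.reg_const _)
    rcases h1 with h1 | h1
    · rw [h1, v.ord_zero] at hv; exact lt_irrefl _ hv
    · omega

/-- the sum of `X` and `m / X` is not constant -/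
theorem sum_ne [CharZero k] [IsAlgClosed k] {X X' : H} {m : k} (hX : X * X' = algebraMap k H m)
    (hne : ∀ z, X - algebraMap k H z ≠ 0) (z : k) : algebraMap k H z ≠ X + X' := by
  intro hz
  have h1 : X * (algebraMap k H z - X) = algebraMap k H m := by
    rw [← hX, hz]
    ring
  obtain ⟨r, hr⟩ := IsAlgClosed.exists_pow_nat_eq (z ^ 2 - 4 * m) (n := 2) (by norm_num)
  have h2 : (2 * X - algebraMap k H (z + r)) * (2 * X - algebraMap k H (z - r)) = 0 := by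
    have hr' := congrArg (algebraMap k H) hr
    simp only [map_sub, map_pow, map_mul, map_ofNat] at hr'
    simp only [map_add, map_sub]
    linear_combination -4 * h1 - hr'
  have h2' : (2 : H) ≠ 0 := by
    have : (2 : H) = algebraMap k H 2 := by rw [map_ofNat]
    rw [this]
    exact map_ne two_ne_zero
  rcases mul_eq_zero.1 h2 with h3 | h3
  · apply hne ((z + r) / 2)
    rw [map_div₀, map_ofNat]
    field_simp
    linear_combination h3
  · apply hne ((z - r) / 2)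
    rw [map_div₀, map_ofNat]
    field_simp
    linear_combination h3

end Pool.Agent.LibK4
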