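import Pool.Agent.LibJac77.Stmt

/-!
The Klein four group of the `x`-line.
-/

open scoped Classical
open Polynomial

namespace Pool.Agent.LibK4

/-- the images of `x` under the Klein four group preserving `e 0`, `e 1`, `e 2` and infinity -/
def xx {k : Type} [Field k] (e : Fin 5 → k) (i : Fin 4) (x : k) : k :=
  match i with
  | 0 => x
  | 1 => e 0 + (e 1 - e 0) * (e 2 - e 0) / (x - e 0)
  | 2 => e 1 + (e 0 - e 1) * (e 2 - e 1) / (x - e 1)
  | 3 => e 2 + (e 0 - e 2) * (e 1 - e 2) / (x - e 2)

end Pool.Agent.LibK4
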