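import Pool.Agent.LibK4.Pair
import Pool.Agent.LibK4.Defs
import Pool.Agent.LibLP34.Main

/-!
Isotropic groups generated by cliques.
-/

open scoped Classical
open Polynomial

namespace Pool.Agent.LibK4

open Pool.Agent.LibBH2 Pool.Agent.LibQC8 Pool.Agent.LibLP34
open Pool.Agent.LibJac77 (Genus2 Pt KC DCf vp dv neg jP Pic mk)

section General

variable {k F : Type} [Field k] [Field F] [Algebra k F]

/-- the classes with power series `1 + z T`, `z` in an isotropic subspace -/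
def grp (hF : IsFunctionField k F) (w : Place k F) (Λ : Submodule ℚ (Ch k F))
    (hΛ : ∀ a ∈ Λ, ∀ b ∈ Λ, a * b = 0) : AddSubgroup (Pic0 k F) where
  carrier := {u | ∃ z ∈ Λ, (EP hF w u).toMul = affU z}
  zero_mem' := ⟨0, zero_mem _, by rw [map_zero, toMul_zero, affU_zero]⟩
  add_mem' := by
    rintro u u' ⟨z, hz, h⟩ ⟨z', hz', h'⟩
    exact ⟨z + z', add_mem hz hz', by rw [map_add, toMul_add, h, h', affU_mul (hΛ z hz z' hz')]⟩
  neg_mem' := by
    rintro u ⟨z, hz, h⟩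
    refine ⟨-z, neg_mem hz, ?_⟩
    rw [map_neg, toMul_neg, h]
    apply inv_eq_of_mul_eq_one_right
    rw [affU_mul (hΛ z hz _ (neg_mem hz)), add_neg_cancel, affU_zero]

theorem mem_grp {hF : IsFunctionField k F} {w : Place k F} {Λ : Submodule ℚ (Ch k F)}
    {hΛ : ∀ a ∈ Λ, ∀ b ∈ Λ, a * b = 0} {u : Pic0 k F} :
    u ∈ grp hF w Λ hΛ ↔ ∃ z ∈ Λ, (EP hF w u).toMul = affU z := Iff.rfl

/-- the group is saturated -/
theorem grp_sat {hF : IsFunctionField k F} {w : Place k F} {Λ : Submodule ℚ (Ch k F)}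
    {hΛ : ∀ a ∈ Λ, ∀ b ∈ Λ, a * b = 0} {u : Pic0 k F} {q : ℤ} (hq : q ≠ 0)
    (h : q • u ∈ grp hF w Λ hΛ) : u ∈ grp hF w Λ hΛ := by
  obtain ⟨z, hz, h⟩ := h
  have hq' : (q : ℚ) ≠ 0 := by exact_mod_cast hq
  refine ⟨(q : ℚ)⁻¹ • z, Λ.smul_mem _ hz, ?_⟩
  refine eq_of_pow_eq (constantCoeff_EP hF w u) (by rw [affU_val, constantCoeff_aff]) hq ?_
  rw [← toMul_zsmul, ← map_zsmul, h]
  have hz2 : ((q : ℚ)⁻¹ • z) * ((q : ℚ)⁻¹ • z) = 0 :=
    hΛ _ (Λ.smul_mem _ hz) _ (Λ.smul_mem _ hz)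
  rw [affU_zpow hz2, smul_smul, mul_inv_cancel₀ hq', one_smul]

/-- the span of pairwise orthogonal elements -/
theorem span_mul {ι : Type} (v : ι → Ch k F) (h : ∀ i j, v i * v j = 0) :
    ∀ a ∈ Submodule.span ℚ (Set.range v), ∀ b ∈ Submodule.span ℚ (Set.range v), a * b = 0 := by
  have h1 : ∀ i, ∀ b ∈ Submodule.span ℚ (Set.range v), v i * b = 0 := by
    intro i b hb
    induction hb using Submodule.span_induction with
    | mem x hx => obtain ⟨j, rfl⟩ := hx; exact h i j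
    | zero => rw [mul_zero]
    | add x y _ _ hx hy => rw [mul_add, hx, hy, add_zero]
    | smul q x _ hx => rw [mul_smul_comm, hx, smul_zero]
  intro a ha b hb
  induction ha using Submodule.span_induction with
  | mem x hx => obtain ⟨i, rfl⟩ := hx; exact h1 i b hb
  | zero => rw [zero_mul]
  | add x y _ _ hx hy => rw [add_mul, hx, hy, add_zero]
  | smul q x _ hx => rw [smul_mul_assoc, hx, smul_zero]

/-- the saturation of the group generated by a clique of points -/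
theorem mem_clique {ι : Type} (hF : IsFunctionField k F) (w : Place k F) (P : ι → Place k F)
    (h : ∀ i j, vv w (P i) * vv w (P j) = 0) {u : Pic0 k F}
    (hu : u ∈ sat (Set.range fun i => cl w {P i})) : u ∈ Qd hF w 0 := by
  obtain ⟨q, hq, hu⟩ := hu
  have h1 : AddSubgroup.closure (Set.range fun i => cl w {P i}) ≤
      grp hF w (Submodule.span ℚ (Set.range fun i => vv w (P i))) (span_mul _ h) := by
    rw [AddSubgroup.closure_le]
    rintro _ ⟨i, rfl⟩
    refine ⟨vv w (P i), Submodule.subset_span ⟨i, rfl⟩, ?_⟩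
    apply Units.ext
    rw [EP_cl, Multiset.map_singleton, Multiset.prod_singleton, gen_val, affU_val, aff]
  obtain ⟨z, _, hz⟩ := grp_sat hq (h1 hu)
  refine ⟨z, 0, ?_⟩
  rw [hz, affU_val, aff, quad, zero_smul, map_zero, zero_mul, add_zero]

end General

variable {k : Type} [Field k] [CharZero k] [IsAlgClosed k] {f : k[X]} [Genus2 f]

omit [CharZero k] [IsAlgClosed k] in
theorem xx_zero (e : Fin 5 → k) (x : k) : xx e 0 x = x := rfl

/-- the images of a point under the Klein four group are related by its involutions -/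
theorem xx_rel {e : Fin 5 → k} {x : k} (h0 : x ≠ e 0) (h1 : x ≠ e 1) (h2 : x ≠ e 2) :
    (xx e 0 x - e 0) * (xx e 1 x - e 0) = (e 1 - e 0) * (e 2 - e 0) ∧
    (xx e 0 x - e 1) * (xx e 2 x - e 1) = (e 0 - e 1) * (e 2 - e 1) ∧
    (xx e 0 x - e 2) * (xx e 3 x - e 2) = (e 0 - e 2) * (e 1 - e 2) ∧
    (xx e 1 x - e 2) * (xx e 2 x - e 2) = (e 0 - e 2) * (e 1 - e 2) ∧
    (xx e 1 x - e 1) * (xx e 3 x - e 1) = (e 0 - e 1) * (e 2 - e 1) ∧
    (xx e 2 x - e 0) * (xx e 3 x - e 0) = (e 1 - e 0) * (e 2 - e 0) := by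
  have h0 : x - e 0 ≠ 0 := sub_ne_zero.2 h0
  have h1 : x - e 1 ≠ 0 := sub_ne_zero.2 h1
  have h2 : x - e 2 ≠ 0 := sub_ne_zero.2 h2
  simp only [xx]
  refine ⟨?_, ?_, ?_, ?_, ?_, ?_⟩ <;> field_simp <;> ring

/-- the clique -/
theorem klein_vv {e : Fin 5 → k} (hf : f = ∏ i, (X - C (e i))) {x : k} (h0 : x ≠ e 0) (h1 : x ≠ e 1)
    (h2 : x ≠ e 2) (y : Fin 4 → k) (h : ∀ i, y i ^ 2 = f.eval (xx e i x)) (i j : Fin 4) :
    vv (ww f) (vp (.aff _ _ (h i) : Pt f)) * vv (ww f) (vp (.aff _ _ (h j) : Pt f)) = 0 := by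
  have hfA : f = (X - C (e 0)) * (X - C (e 1)) * (X - C (e 2)) * (X - C (e 3)) * (X - C (e 4)) := by
    rw [hf, Fin.prod_univ_five]
  have hfB : f = (X - C (e 1)) * (X - C (e 0)) * (X - C (e 2)) * (X - C (e 3)) * (X - C (e 4)) := by
    rw [hfA]; ring
  have hfC : f = (X - C (e 2)) * (X - C (e 0)) * (X - C (e 1)) * (X - C (e 3)) * (X - C (e 4)) := by
    rw [hfA]; ring
  obtain ⟨r1, r2, r3, r4, r5, r6⟩ := xx_rel h0 h1 h2
  have p1 := pair hfA (h 0) (h 1) r1
  have p2 := pair hfB (h 0) (h 2) r2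
  have p3 := pair hfC (h 0) (h 3) r3
  have p4 := pair hfC (h 1) (h 2) r4
  have p5 := pair hfB (h 1) (h 3) r5
  have p6 := pair hfA (h 2) (h 3) r6
  fin_cases i <;> fin_cases j
  · exact vv_neg_sq _
  · exact p1
  · exact p2
  · exact p3
  · exact (mul_comm _ _).trans p1
  · exact vv_neg_sq _
  · exact p4
  · exact p5
  · exact (mul_comm _ _).trans p2
  · exact (mul_comm _ _).trans p4
  · exact vv_neg_sq _
  · exact p6
  · exact (mul_comm _ _).trans p3
  · exact (mul_comm _ _).trans p5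
  · exact (mul_comm _ _).trans p6
  · exact vv_neg_sq _

/-- a place over `ξ` is a point with first coordinate `ξ` -/
theorem exists_aff (v : Place k (KC f)) {ξ : k}
    (hv : v.Zer (algebraMap (RatFunc k) (KC f) RatFunc.X - algebraMap k (KC f) ξ)) :
    ∃ (η : k) (h : η ^ 2 = f.eval ξ), v = vp (.aff ξ η h) := by
  obtain ⟨P, rfl⟩ := Pool.Agent.LibJac77.exists_eq_vp v
  have hsp := Pool.Agent.LibJac77.sp_vp P
  match P, hsp, hv with
  | .inf, hsp, hv =>
    exfalso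
    have h1 : (vp (.inf : Pt f)).Reg (DCf f).s := Place.reg_of_val hv
    have h2 : (vp (.inf : Pt f)).ord (DCf f).s < 0 := hsp
    rcases h1 with h1 | h1
    · rw [h1, Place.ord_zero] at h2; exact lt_irrefl _ h2
    · omega
  | .aff x y h, hsp, hv =>
    have : x = ξ := Place.val_unique hsp.1 hv
    subst this
    exact ⟨y, h, rfl⟩

/-- the union of the Klein four groups of points -/
def Klein (f : k[X]) [Genus2 f] (w : Place k (KC f)) : Set (Pic0 k (KC f)) :=
  {u | ∃ (e : Fin 5 → k) (x : k) (P : Fin 4 → Place k (KC f)), f = ∏ i, (X - C (e i)) ∧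
    x ≠ e 0 ∧ x ≠ e 1 ∧ x ≠ e 2 ∧ (∀ i, (P i).Zer
      (algebraMap (RatFunc k) (KC f) RatFunc.X - algebraMap k (KC f) (xx e i x))) ∧
    u ∈ sat (Set.range fun i => cl w {P i})}

theorem klein_sub : Klein f (ww f) ⊆ Qd (isFunctionField f) (ww f) 0 := by
  rintro u ⟨e, x, P, hf, h0, h1, h2, hP, hu⟩
  have hP' := fun i => exists_aff (P i) (hP i)
  choose y h hPy using hP'
  refine mem_clique _ _ P (fun i j => ?_) hu
  rw [hPy i, hPy j]
  exact klein_vv hf h0 h1 h2 y h i j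

theorem klein_torsion : TorsionOn (ww f) (Klein f (ww f)) :=
  (torsionOn_Qd (isFunctionField f) (ww f)).mono klein_sub

end Pool.Agent.LibK4
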