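import Pool.Agent.LibK4.Alg

/-!
The pair lemma.
-/

open scoped Classical
open Polynomial

namespace Pool.Agent.LibK4

open Pool.Agent.LibBH2 Pool.Agent.LibQC8 Pool.Agent.LibLP34
open Pool.Agent.LibJac77 (Genus2 Pt KC DCf vp dv neg jP Pic mk)

variable {k : Type} [Field k]

/-- the field of the curve of pairs -/
theorem exists_xx [CharZero k] [IsAlgClosed k] (f : k[X]) (a m : k) (hm0 : m ≠ 0) :
    ∃ (H : Type) (_ : Field H) (_ : Algebra k H) (x x' y y' : H), IsFunctionField k H ∧
      Transcendental k x ∧ Transcendental k x' ∧ y ^ 2 = aeval x f ∧ y' ^ 2 = aeval x' f ∧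
      (x - algebraMap k H a) * (x' - algebraMap k H a) = algebraMap k H m := by
  have hXa : (RatFunc.X : RatFunc k) - algebraMap k (RatFunc k) a ≠ 0 := by
    intro h0
    have : (RatFunc.X : RatFunc k) = algebraMap k (RatFunc k) a := sub_eq_zero.1 h0
    exact RatFunc.transcendental_X (this ▸ isAlgebraic_algebraMap a)
  set xr' : RatFunc k := algebraMap k (RatFunc k) a + algebraMap k (RatFunc k) m /
    (RatFunc.X - algebraMap k (RatFunc k) a) with hxr'
  obtain ⟨H, i1, i2, ι, y, y', hH, hy, hy'⟩ := exists_H (aeval (RatFunc.X : RatFunc k) f)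
    (aeval xr' f)
  have hx : Transcendental k (ι RatFunc.X) := Pool.Agent.LibJac77.transcendental_ι ι
  have hxa : ι RatFunc.X - algebraMap k H a ≠ 0 := by
    intro h0
    have : ι RatFunc.X = algebraMap k H a := sub_eq_zero.1 h0
    exact hx (this ▸ isAlgebraic_algebraMap a)
  have hm : (ι RatFunc.X - algebraMap k H a) * (ι xr' - algebraMap k H a) = algebraMap k H m := by
    have h1 : ι xr' = algebraMap k H a + algebraMap k H m / (ι RatFunc.X - algebraMap k H a) := by
      rw [hxr', map_add, map_div₀, map_sub, ι.commutes, ι.commutes]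
    rw [h1, add_sub_cancel_left, mul_div_cancel₀ _ hxa]
  refine ⟨H, i1, i2, ι RatFunc.X, ι xr', y, y', hH, hx, ?_, ?_, ?_, hm⟩
  · by_contra hcon
    obtain ⟨z, hz⟩ := const_of_alg hcon
    rw [← hz, ← map_sub] at hm
    have hza : z - a ≠ 0 := by
      intro h0
      rw [h0, map_zero, mul_zero] at hm
      exact hm0 ((map_eq_zero_iff _ (algebraMap k H).injective).1 hm.symm)
    have h1 : ι RatFunc.X = algebraMap k H (a + m / (z - a)) := by
      rw [map_add, map_div₀, ← hm, mul_div_cancel_right₀ _ (map_ne hza)]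
      ring
    exact hx (h1 ▸ isAlgebraic_algebraMap _)
  · rw [hy, Polynomial.aeval_algHom_apply]
  · rw [hy', Polynomial.aeval_algHom_apply]

variable [CharZero k] [IsAlgClosed k] {f : k[X]} [Genus2 f]

omit [CharZero k] [IsAlgClosed k] in
theorem roots_ne {r s : k} {q : k[X]} (h : f = (X - C r) * (X - C s) * q) : r ≠ s := by
  rintro rfl
  have h1 := (Genus2.sqf (f := f)) (X - C r) ⟨q, h⟩
  exact not_isUnit_X_sub_C r h1

/-- the pair lemma: points whose `x`-coordinates are exchanged by the involution which exchanges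
`a` with infinity and `b` with `c` -/
theorem pair {a b c d g : k} (hf : f = (X - C a) * (X - C b) * (X - C c) * (X - C d) * (X - C g))
    {ξ₀ η₀ ξ₁ η₁ : k} (h₀ : η₀ ^ 2 = f.eval ξ₀) (h₁ : η₁ ^ 2 = f.eval ξ₁)
    (hξ : (ξ₀ - a) * (ξ₁ - a) = (b - a) * (c - a)) :
    vv (ww f) (vp (.aff ξ₀ η₀ h₀ : Pt f)) * vv (ww f) (vp (.aff ξ₁ η₁ h₁ : Pt f)) = 0 := by
  by_cases hη₀ : η₀ = 0
  · subst hη₀; rw [vv_weier, zero_mul]
  by_cases hη₁ : η₁ = 0
  · subst hη₁; rw [vv_weier, mul_zero]
  have hab : a ≠ b := roots_ne (f := f) (q := (X - C c) * (X - C d) * (X - C g)) (by rw [hf]; ring)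
  have hac : a ≠ c := roots_ne (f := f) (q := (X - C b) * (X - C d) * (X - C g)) (by rw [hf]; ring)
  have hdg : d ≠ g := roots_ne (f := f) (q := (X - C a) * (X - C b) * (X - C c)) (by rw [hf]; ring)
  have hev : ∀ x : k, f.eval x = (x - a) * ((x - a) - (b - a)) * ((x - a) - (c - a)) *
      ((x - a) - (d - a)) * ((x - a) - (g - a)) := by
    intro x
    rw [hf]
    simp
  have hm0 : (b - a) * (c - a) ≠ 0 := mul_ne_zero (sub_ne_zero.2 hab.symm) (sub_ne_zero.2 hac.symm)
  obtain ⟨H, _, _, x, x', y, y', hH, hx, hx', hy, hy', hm⟩ := exists_xx f a _ hm0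
  have hev' : ∀ x : H, aeval x f = (x - algebraMap k H a) *
      ((x - algebraMap k H a) - algebraMap k H (b - a)) *
      ((x - algebraMap k H a) - algebraMap k H (c - a)) *
      ((x - algebraMap k H a) - algebraMap k H (d - a)) *
      ((x - algebraMap k H a) - algebraMap k H (g - a)) := by
    intro x
    rw [hf]
    simp
  have hne : ∀ z : k, (x - algebraMap k H a) - algebraMap k H z ≠ 0 := by
    intro z h0
    apply hx
    have : x = algebraMap k H (z + a) := by rw [map_add]; linear_combination h0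
    exact this ▸ isAlgebraic_algebraMap _
  have hne' : ∀ z : k, (x' - algebraMap k H a) - algebraMap k H z ≠ 0 := by
    intro z h0
    apply hx'
    have : x' = algebraMap k H (z + a) := by rw [map_add]; linear_combination h0
    exact this ▸ isAlgebraic_algebraMap _
  have hu := sum_ne hm hne
  have hγδ : d - a ≠ g - a := fun h => hdg (sub_left_injective h)
  have hxa : ∀ (v : Place k H) {z : H} {ζ : k}, v.Zer (z - algebraMap k H ζ) →
      v.Zer ((z - algebraMap k H a) - algebraMap k H (ζ - a)) := fun v z ζ h =>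
    Place.val_sub h (Place.val_const a)
  have hsum : ∀ v : Place k H, v.Zer ((x - algebraMap k H a) + (x' - algebraMap k H a) -
      algebraMap k H ((ξ₀ - a) + (ξ₁ - a))) → v.Zer (x + x' - algebraMap k H (ξ₀ + ξ₁)) := by
    intro v h
    convert h using 1
    simp only [map_add, map_sub]
    ring
  have hend : ∀ {ξ η : k}, η ^ 2 = f.eval ξ → ξ - a = d - a → η = 0 := by
    intro ξ η h h'
    rw [hev, h'] at h
    have : η ^ 2 = 0 := by rw [h]; ring
    exact pow_eq_zero_iff two_ne_zero |>.1 this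
  by_cases hcase : (b - a) * (c - a) = (d - a) * (g - a)
  · obtain ⟨φ, z', hz', hφ, hzero, hpole⟩ := caseB (X := x - algebraMap k H a)
      (X' := x' - algebraMap k H a) (y := y) (y' := y') (Ξ₀ := ξ₀ - a) (Ξ₁ := ξ₁ - a) (η₀ := η₀)
      (η₁ := η₁) hm (by rw [hy, hev']) (by rw [hy', hev']) hu hξ
      (by rw [h₀, hev]) (by rw [h₁, hev]) (mul_ne_zero hη₀ hη₁) hcase
    refine core hH hx hx' hy (hz'.trans hy') hm hm0 h₀ h₁ hη₀ hη₁ hξ hφ
      (fun v hv => ⟨hsum v (hzero v hv).1, (hzero v hv).2⟩) ?_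
    intro v hv ξ η ξ' η' q1 q2 k1 _ k3 _
    exact (hpole v hv _ _ (hxa v k1) (hxa v k3)).imp (hend q1) (hend q2)
  · obtain ⟨φ, hφ, hzero, hpole⟩ := caseA (X := x - algebraMap k H a)
      (X' := x' - algebraMap k H a) (y := y) (y' := y') (Ξ₀ := ξ₀ - a) (Ξ₁ := ξ₁ - a) (η₀ := η₀)
      (η₁ := η₁) hm (by rw [hy, hev']) (by rw [hy', hev']) hne hne' hu hξ
      (by rw [h₀, hev]) (by rw [h₁, hev]) (mul_ne_zero hη₀ hη₁) hγδ hm0 hcase
    refine core hH hx hx' hy hy' hm hm0 h₀ h₁ hη₀ hη₁ hξ hφ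
      (fun v hv => ⟨hsum v (hzero v hv).1, (hzero v hv).2⟩) ?_
    intro v hv ξ η ξ' η' q1 q2 k1 _ k3 _
    exact (hpole v hv _ _ (hxa v k1) (hxa v k3)).imp (hend q1) (hend q2)

end Pool.Agent.LibK4
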