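import Pool.Agent.LibK4.Push

/-!
Values of a map to the curve `y ^ 2 = f(x)`.
-/

open scoped Classical
open Polynomial

namespace Pool.Agent.LibK4

open Pool.Agent.LibBH2 Pool.Agent.LibQC8 Pool.Agent.LibLP34
open Pool.Agent.LibJac77 (Genus2 Pt KC DCf vp dv neg jP Pic mk)

variable {k H : Type} [Field k] [CharZero k] [IsAlgClosed k] [Field H] [Algebra k H] {f : k[X]}
  [Genus2 f]

/-- the point `P` is the value at `v` of the pair of functions `x`, `w` -/
def Val (v : Place k H) (x w : H) : Pt f → Prop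
  | .inf => v.ord x < 0
  | .aff ξ η _ => v.Zer (x - algebraMap k H ξ) ∧ v.Zer (w - algebraMap k H η)

/-- a non-constant map from the curve of `H` has a value at every place -/
theorem exists_pt (hH : IsFunctionField k H) (j : KC f →ₐ[k] H) (v : Place k H) :
    ∃ P : Pt f, Spec v (.inr j) (vp P) ∧ Val v (j (DCf f).s) (j (DCf f).w) P := by
  have hne : ∃ g, v.ord (j g) ≠ 0 := by
    by_cases h0 : v.ord (j (DCf f).s) = 0
    · obtain ⟨c, hc⟩ := Pool.Agent.LibEnd77.Val8.exists_val hH v (f := j (DCf f).s)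
        (Or.inr h0.symm.le)
      refine ⟨(DCf f).s - algebraMap k _ c, ?_⟩
      rw [map_sub, j.commutes]
      rcases hc with hc | hc
      · exfalso
        have h1 : j ((DCf f).s - algebraMap k _ c) = 0 := by rw [map_sub, j.commutes, hc]
        have h2 := (map_eq_zero_iff j j.injective).1 h1
        exact (DCf f).s_sub_ne_zero c h2
      · exact hc.ne'
    · exact ⟨_, h0⟩
  obtain ⟨a, n, hn, ha⟩ := exists_restr j v hne
  obtain ⟨P, rfl⟩ := Pool.Agent.LibJac77.exists_eq_vp a
  have hn' : (0 : ℤ) < n := by exact_mod_cast hn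
  refine ⟨P, ?_, ?_⟩
  · intro g hg
    rw [ha]
    exact mul_pos hn' hg
  · have hzer : ∀ (g : KC f), (vp P).Zer g → v.Zer (j g) := by
      rintro g (rfl | hg)
      · left; rw [map_zero]
      · right
        rw [ha]
        exact mul_pos hn' hg
    have hsp := Pool.Agent.LibJac77.sp_vp P
    match P, hsp, ha, hzer with
    | .inf, hsp, ha, _ =>
      show v.ord (j (DCf f).s) < 0
      rw [ha]
      exact mul_neg_of_pos_of_neg hn' hsp
    | .aff ξ η h, hsp, _, hzer =>
      refine ⟨?_, ?_⟩
      · have := hzer _ hsp.1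
        rwa [map_sub, j.commutes] at this
      · have := hzer _ hsp.2
        rwa [map_sub, j.commutes] at this

/-- the map to the curve given by a pair of functions -/
theorem exists_map (f : k[X]) [Genus2 f] {x w : H} (hx : Transcendental k x)
    (hw : w ^ 2 = aeval x f) :
    ∃ j : KC f →ₐ[k] H, j (DCf f).s = x ∧ j (DCf f).w = w := by
  have hinj : Function.Injective (aeval x : k[X] →ₐ[k] H) := by
    rw [injective_iff_map_eq_zero]
    intro p hp
    by_contra h0
    exact hx ⟨p, h0, hp⟩
  let i : RatFunc k →+* H := IsFractionRing.lift (A := k[X]) (K := RatFunc k) (L := H)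
    (g := (aeval x : k[X] →ₐ[k] H).toRingHom) hinj
  have hi : ∀ p : k[X], i (algebraMap k[X] (RatFunc k) p) = aeval x p := by
    intro p
    show IsFractionRing.lift hinj _ = _
    rw [IsFractionRing.lift_algebraMap]
    rfl
  obtain ⟨ψ, h1, h2⟩ := (DCf f).exists_hom (Pool.Agent.LibJac77.nsq f) i w (by
    rw [hi]; exact hw)
  refine ⟨{ ψ with commutes' := fun c => ?_ }, ?_, h2⟩
  · show ψ (algebraMap k (KC f) c) = _
    have h3 : algebraMap k (KC f) c = (DCf f).ι (algebraMap k[X] (RatFunc k) (C c)) := by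
      rw [(DCf f).ι_poly]; simp
    rw [h3, h1, hi, aeval_C]
  · show ψ (DCf f).s = x
    have h3 : (DCf f).s = (DCf f).ι (algebraMap k[X] (RatFunc k) X) := by
      rw [(DCf f).ι_poly]; simp
    rw [h3, h1, hi, aeval_X]

end Pool.Agent.LibK4
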